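import Pool.Agent.TH783.IS.Comb
import Pool.Agent.W889.VC.Coh2

set_option autoImplicit false

/-! Forbidden induced subgraphs: assembly. -/

namespace Pool.Agent.TH783.IS

open Pool.Agent.W889.VC

/-- simple graphs without induced subgraph `H` -/
structure IFree {V : Type} (H : SimpleGraph V) (y : BinStr) : Prop where
  irrefl : ∀ u, y u u = false
  symm : ∀ u v, y u v = true → y v u = true
  free : ¬ ∃ f : V → ℕ, Function.Injective f ∧ ∀ u v, y (f u) (f v) = true ↔ H.Adj u v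

variable {V : Type} {H : SimpleGraph V}

theorem of_path (h : Nonempty (H ↪g SimpleGraph.pathGraph 4)) {y : BinStr} (hy : IFree H y) :
    HFree (SimpleGraph.pathGraph 4) y := by
  obtain ⟨e⟩ := h
  refine ⟨⟨hy.irrefl, hy.symm⟩, ?_⟩
  rintro ⟨f, hf1, hf2⟩
  exact hy.free ⟨fun v => f (e v), fun u v huv => e.injective (hf1 huv),
    fun u v => (hf2 _ _).trans e.map_adj_iff⟩

theorem pos (h : Nonempty (H ↪g SimpleGraph.pathGraph 4)) : VCof True BIso (IFree H) := by
  intro B h1 h2 h3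
  exact vc_p4 B h1 h2 fun x hx => of_path h (h3 x hx)

theorem tr_free (h : Tr H) (y : BinStr) (hy : Bip y) : IFree H y := by
  obtain ⟨hg, A, hA⟩ := hy
  refine ⟨hg.irrefl, hg.symm, ?_⟩
  rintro ⟨f, -, hf⟩
  obtain ⟨i, j, k, h1, h2, h3⟩ := h
  have e1 := hA _ _ ((hf i j).2 h1)
  have e2 := hA _ _ ((hf j k).2 h2)
  have e3 := hA _ _ ((hf i k).2 h3)
  tauto

theorem co_free (h : Co H) (y : BinStr) (hy : IsGraph y ∧ Bip (comp y)) : IFree H y := by
  obtain ⟨hg, -, A, hA⟩ := hy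
  refine ⟨hg.irrefl, hg.symm, ?_⟩
  rintro ⟨f, hf1, hf⟩
  obtain ⟨i, j, k, n1, n2, n3, h1, h2, h3⟩ := h
  have key : ∀ a b, a ≠ b → ¬ H.Adj a b → comp y (f a) (f b) = true := by
    intro a b hab hn
    unfold comp
    rw [if_neg fun h => hab (hf1 h)]
    have h4 : ¬ y (f a) (f b) = true := fun h => hn ((hf a b).1 h)
    rw [Bool.not_eq_true] at h4
    rw [h4]
    rfl
  have e1 := hA _ _ (key i j n1 h1)
  have e2 := hA _ _ (key j k n2 h2)
  have e3 := hA _ _ (key i k n3 h3)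
  tauto

theorem sp_free (h : ¬ Sp H) (y : BinStr) (hy : Split y) : IFree H y := by
  obtain ⟨hg, A, hA, hA'⟩ := hy
  refine ⟨hg.irrefl, hg.symm, ?_⟩
  rintro ⟨f, hf1, hf⟩
  refine h ⟨fun i => A (f i), fun i j hi hj hne => ?_, fun i j hi hj hij => ?_⟩
  · exact (hf i j).1 (hA _ _ hi hj (fun e => hne (hf1 e)))
  · have := (hf i j).2 hij
    rw [hA' _ _ hi hj] at this
    exact absurd this (by decide)

theorem neg (h : ¬ Nonempty (H ↪g SimpleGraph.pathGraph 4)) : Faithful BIso (IFree H) := by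
  by_cases h1 : Tr H
  · exact target_Bip.faithful.mono (tr_free h1)
  by_cases h2 : Co H
  · exact (faithful_compl (fun y hy => hy.1) target_Bip.faithful).mono (co_free h2)
  by_cases h3 : Sp H
  · exact absurd (emb h1 h2 h3) h
  · exact target_Split.faithful.mono (sp_free h3)

end Pool.Agent.TH783.IS
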