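import Mathlib

set_option autoImplicit false

/-! The graphs without triangles, without independent triples, which are split. -/

namespace Pool.Agent.TH783.IS

/-- a triangle -/
def Tr {V : Type} (H : SimpleGraph V) : Prop := ∃ i j k, H.Adj i j ∧ H.Adj j k ∧ H.Adj i k

/-- an independent triple -/
def Co {V : Type} (H : SimpleGraph V) : Prop :=
  ∃ i j k, i ≠ j ∧ j ≠ k ∧ i ≠ k ∧ ¬ H.Adj i j ∧ ¬ H.Adj j k ∧ ¬ H.Adj i k

/-- split graphs -/
def Sp {V : Type} (H : SimpleGraph V) : Prop :=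
  ∃ A : V → Prop, (∀ i j, A i → A j → i ≠ j → H.Adj i j) ∧ ∀ i j, ¬ A i → ¬ A j → ¬ H.Adj i j

theorem pg_adj (i j : Fin 4) : (SimpleGraph.pathGraph 4).Adj i j ↔
    (i.val + 1 = j.val ∨ j.val + 1 = i.val) := by
  rw [SimpleGraph.pathGraph_adj]

/-- pairs of vertices of the path -/
def pb (i j : Fin 4) : Bool := i.val + 1 == j.val || j.val + 1 == i.val

theorem pb_iff (i j : Fin 4) : pb i j = true ↔ (SimpleGraph.pathGraph 4).Adj i j := by
  rw [pg_adj]
  unfold pb
  simp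

/-- the hypotheses on four vertices -/
def hy4 (a0 a1 a2 a3 e01 e02 e03 e12 e13 e23 : Bool) : Bool :=
  !(e01 && e12 && e02) && !(e01 && e13 && e03) && !(e02 && e23 && e03) && !(e12 && e23 && e13) &&
  (e01 || e12 || e02) && (e01 || e13 || e03) && (e02 || e23 || e03) && (e12 || e23 || e13) &&
  ((!(a0 && a1) || e01) && (!(a0 && a2) || e02) && (!(a0 && a3) || e03) && (!(a1 && a2) || e12) &&
      (!(a1 && a3) || e13) && (!(a2 && a3) || e23)) &&
  ((a0 || a1 || !e01) && (a0 || a2 || !e02) && (a0 || a3 || !e03) && (a1 || a2 || !e12) &&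
      (a1 || a3 || !e13) && (a2 || a3 || !e23))

/-- the conclusion on four vertices -/
def co4 (f0 f1 f2 f3 : Fin 4) (e01 e02 e03 e12 e13 e23 : Bool) : Bool :=
  f0 != f1 && f0 != f2 && f0 != f3 && f1 != f2 && f1 != f3 && f2 != f3 &&
  (pb f0 f1 == e01) && (pb f0 f2 == e02) && (pb f0 f3 == e03) && (pb f1 f2 == e12) &&
  (pb f1 f3 == e13) && (pb f2 f3 == e23)

theorem dec4' : ∀ a0 a1 a2 a3 : Bool, ∀ e01 e02 e03 e12 e13 e23 : Bool,
    hy4 a0 a1 a2 a3 e01 e02 e03 e12 e13 e23 = true →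
    ∃ f0 f1 f2 f3 : Fin 4, co4 f0 f1 f2 f3 e01 e02 e03 e12 e13 e23 = true := by
  decide +kernel

theorem dec4 (a0 a1 a2 a3 e01 e02 e03 e12 e13 e23 : Bool)
    (h1 : (e01 && e12 && e02) = false) (h2 : (e01 && e13 && e03) = false)
    (h3 : (e02 && e23 && e03) = false) (h4 : (e12 && e23 && e13) = false)
    (h5 : (e01 || e12 || e02) = true) (h6 : (e01 || e13 || e03) = true)
    (h7 : (e02 || e23 || e03) = true) (h8 : (e12 || e23 || e13) = true)
    (h9 : ((!(a0 && a1) || e01) && (!(a0 && a2) || e02) && (!(a0 && a3) || e03) &&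
      (!(a1 && a2) || e12) && (!(a1 && a3) || e13) && (!(a2 && a3) || e23)) = true)
    (h10 : ((a0 || a1 || !e01) && (a0 || a2 || !e02) && (a0 || a3 || !e03) && (a1 || a2 || !e12) &&
      (a1 || a3 || !e13) && (a2 || a3 || !e23)) = true) :
    ∃ f0 f1 f2 f3 : Fin 4, f0 ≠ f1 ∧ f0 ≠ f2 ∧ f0 ≠ f3 ∧ f1 ≠ f2 ∧ f1 ≠ f3 ∧ f2 ≠ f3 ∧
      pb f0 f1 = e01 ∧ pb f0 f2 = e02 ∧ pb f0 f3 = e03 ∧ pb f1 f2 = e12 ∧ pb f1 f3 = e13 ∧
      pb f2 f3 = e23 := by
  obtain ⟨f0, f1, f2, f3, h⟩ := dec4' a0 a1 a2 a3 e01 e02 e03 e12 e13 e23 (by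
    unfold hy4
    rw [h1, h2, h3, h4, h5, h6, h7, h8, h9, h10]
    rfl)
  refine ⟨f0, f1, f2, f3, ?_⟩
  unfold co4 at h
  simp only [Bool.and_eq_true, bne_iff_ne, beq_iff_eq] at h
  tauto

theorem dec3 : ∀ e01 e02 e12 : Bool, (e01 && e12 && e02) = false → (e01 || e12 || e02) = true →
    ∃ f0 f1 f2 : Fin 4, f0 ≠ f1 ∧ f0 ≠ f2 ∧ f1 ≠ f2 ∧
      pb f0 f1 = e01 ∧ pb f0 f2 = e02 ∧ pb f1 f2 = e12 := by
  decide +kernel

theorem dec2 : ∀ e01 : Bool, ∃ f0 f1 : Fin 4, f0 ≠ f1 ∧ pb f0 f1 = e01 := by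
  decide +kernel

theorem dec5 : ∀ g0 g1 g2 g3 g4 : Bool,
    (g0 = g1 ∧ g1 = g2) ∨ (g0 = g1 ∧ g1 = g3) ∨ (g0 = g1 ∧ g1 = g4) ∨ (g0 = g2 ∧ g2 = g3) ∨
    (g0 = g2 ∧ g2 = g4) ∨ (g0 = g3 ∧ g3 = g4) ∨ (g1 = g2 ∧ g2 = g3) ∨ (g1 = g2 ∧ g2 = g4) ∨
    (g1 = g3 ∧ g3 = g4) ∨ (g2 = g3 ∧ g3 = g4) := by
  decide +kernel

theorem no_five {V : Type} {H : SimpleGraph V} (h1 : ¬ Tr H) (h2 : ¬ Co H) (h3 : Sp H)
    (f : Fin 5 → V) (hf : Function.Injective f) : False := by
  classical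
  obtain ⟨A, hA1, hA2⟩ := h3
  have key : ∀ i j k : Fin 5, i ≠ j → j ≠ k → i ≠ k →
      decide (A (f i)) = decide (A (f j)) → decide (A (f j)) = decide (A (f k)) → False := by
    intro i j k hij hjk hik e1 e2
    rw [decide_eq_decide] at e1 e2
    have n1 : f i ≠ f j := fun h => hij (hf h)
    have n2 : f j ≠ f k := fun h => hjk (hf h)
    have n3 : f i ≠ f k := fun h => hik (hf h)
    by_cases hi : A (f i)
    · exact h1 ⟨f i, f j, f k, hA1 _ _ hi (e1.1 hi) n1, hA1 _ _ (e1.1 hi) (e2.1 (e1.1 hi)) n2,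
        hA1 _ _ hi (e2.1 (e1.1 hi)) n3⟩
    · have hj : ¬ A (f j) := fun h => hi (e1.2 h)
      have hk : ¬ A (f k) := fun h => hj (e2.2 h)
      exact h2 ⟨f i, f j, f k, n1, n2, n3, hA2 _ _ hi hj, hA2 _ _ hj hk, hA2 _ _ hi hk⟩
  have := dec5 (decide (A (f 0))) (decide (A (f 1))) (decide (A (f 2))) (decide (A (f 3)))
    (decide (A (f 4)))
  rcases this with h | h | h | h | h | h | h | h | h | h
  · exact key 0 1 2 (by decide) (by decide) (by decide) h.1 h.2
  · exact key 0 1 3 (by decide) (by decide) (by decide) h.1 h.2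
  · exact key 0 1 4 (by decide) (by decide) (by decide) h.1 h.2
  · exact key 0 2 3 (by decide) (by decide) (by decide) h.1 h.2
  · exact key 0 2 4 (by decide) (by decide) (by decide) h.1 h.2
  · exact key 0 3 4 (by decide) (by decide) (by decide) h.1 h.2
  · exact key 1 2 3 (by decide) (by decide) (by decide) h.1 h.2
  · exact key 1 2 4 (by decide) (by decide) (by decide) h.1 h.2
  · exact key 1 3 4 (by decide) (by decide) (by decide) h.1 h.2
  · exact key 2 3 4 (by decide) (by decide) (by decide) h.1 h.2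

theorem fin_emb {n : ℕ} (hn : n ≤ 4) {H : SimpleGraph (Fin n)} (h1 : ¬ Tr H) (h2 : ¬ Co H)
    (h3 : Sp H) : ∃ f : Fin n → Fin 4, Function.Injective f ∧
      ∀ i j, pb (f i) (f j) = true ↔ H.Adj i j := by
  classical
  obtain ⟨A, hA1, hA2⟩ := h3
  have tr : ∀ i j k, ((decide (H.Adj i j)) && (decide (H.Adj j k)) && (decide (H.Adj i k))) =
      false := by
    intro i j k
    by_contra h
    rw [Bool.not_eq_false, Bool.and_eq_true, Bool.and_eq_true, decide_eq_true_iff,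
      decide_eq_true_iff, decide_eq_true_iff] at h
    exact h1 ⟨i, j, k, h.1.1, h.1.2, h.2⟩
  have co : ∀ i j k, i ≠ j → j ≠ k → i ≠ k →
      ((decide (H.Adj i j)) || (decide (H.Adj j k)) || (decide (H.Adj i k))) = true := by
    intro i j k n1 n2 n3
    by_contra h
    rw [Bool.not_eq_true, Bool.or_eq_false_iff, Bool.or_eq_false_iff, decide_eq_false_iff_not,
      decide_eq_false_iff_not, decide_eq_false_iff_not] at h
    exact h2 ⟨i, j, k, n1, n2, n3, h.1.1, h.1.2, h.2⟩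
  have s1 : ∀ i j, i ≠ j → (!(decide (A i) && decide (A j)) || decide (H.Adj i j)) = true := by
    intro i j hij
    by_cases ha : A i <;> by_cases hb : A j <;> simp [ha, hb]
    exact hA1 i j ha hb hij
  have s2 : ∀ i j, (decide (A i) || decide (A j) || !decide (H.Adj i j)) = true := by
    intro i j
    by_cases ha : A i <;> by_cases hb : A j <;> simp [ha, hb]
    exact hA2 i j ha hb
  have pbr : ∀ i : Fin 4, pb i i = false := by decide
  have pbs : ∀ i j : Fin 4, pb i j = pb j i := by decide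
  have hpb : ∀ {m : ℕ} (f : Fin m → Fin 4) (G : SimpleGraph (Fin m)),
      (∀ i j : Fin m, i < j → f i ≠ f j ∧ pb (f i) (f j) = decide (G.Adj i j)) →
      Function.Injective f ∧ ∀ i j, pb (f i) (f j) = true ↔ G.Adj i j := by
    intro m f G h
    constructor
    · intro i j hij
      rcases lt_trichotomy i j with h1 | h1 | h1
      · exact absurd hij (h i j h1).1
      · exact h1
      · exact absurd hij.symm (h j i h1).1
    · intro i j
      rcases lt_trichotomy i j with h1 | h1 | h1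
      · rw [(h i j h1).2, decide_eq_true_iff]
      · subst h1
        rw [pbr]
        exact ⟨fun h => absurd h Bool.false_ne_true, fun h => absurd h (G.irrefl)⟩
      · rw [pbs, (h j i h1).2, decide_eq_true_iff, G.adj_comm]
  interval_cases n
  · exact ⟨fun i => i.elim0, fun i => i.elim0, fun i => i.elim0⟩
  · refine ⟨fun _ => 0, hpb _ H fun i j hij => ?_⟩
    exfalso
    have := i.2
    have := j.2
    have : i.val < j.val := hij
    omega
  · obtain ⟨f0, f1, k1, k2⟩ := dec2 (decide (H.Adj 0 1))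
    refine ⟨![f0, f1], hpb _ H fun i j hij => ?_⟩
    fin_cases i <;> fin_cases j <;> first | exact absurd hij (by decide) | exact ⟨k1, k2⟩
  · obtain ⟨f0, f1, f2, k1, k2, k3, k4, k5, k6⟩ := dec3 (decide (H.Adj 0 1)) (decide (H.Adj 0 2))
      (decide (H.Adj 1 2)) (tr 0 1 2) (co 0 1 2 (by decide) (by decide) (by decide))
    refine ⟨![f0, f1, f2], hpb _ H fun i j hij => ?_⟩
    fin_cases i <;> fin_cases j <;>
      first | exact absurd hij (by decide) | exact ⟨k1, k4⟩ | exact ⟨k2, k5⟩ | exact ⟨k3, k6⟩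
  · obtain ⟨f0, f1, f2, f3, k1, k2, k3, k4, k5, k6, l1, l2, l3, l4, l5, l6⟩ :=
      dec4 (decide (A 0)) (decide (A 1)) (decide (A 2)) (decide (A 3))
      (decide (H.Adj 0 1)) (decide (H.Adj 0 2)) (decide (H.Adj 0 3)) (decide (H.Adj 1 2))
      (decide (H.Adj 1 3)) (decide (H.Adj 2 3))
      (tr 0 1 2) (tr 0 1 3) (tr 0 2 3) (tr 1 2 3)
      (co 0 1 2 (by decide) (by decide) (by decide)) (co 0 1 3 (by decide) (by decide) (by decide))
      (co 0 2 3 (by decide) (by decide) (by decide)) (co 1 2 3 (by decide) (by decide) (by decide))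
      (by rw [s1 0 1 (by decide), s1 0 2 (by decide), s1 0 3 (by decide), s1 1 2 (by decide),
        s1 1 3 (by decide), s1 2 3 (by decide)]; rfl)
      (by rw [s2 0 1, s2 0 2, s2 0 3, s2 1 2, s2 1 3, s2 2 3]; rfl)
    refine ⟨![f0, f1, f2, f3], hpb _ H fun i j hij => ?_⟩
    fin_cases i <;> fin_cases j <;>
      first
        | exact absurd hij (by decide)
        | exact ⟨k1, l1⟩
        | exact ⟨k2, l2⟩
        | exact ⟨k3, l3⟩
        | exact ⟨k4, l4⟩
        | exact ⟨k5, l5⟩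
        | exact ⟨k6, l6⟩

/-- The induced subgraphs of the path with four vertices are the split graphs without triangles
and independent triples. -/
theorem emb {V : Type} {H : SimpleGraph V} (h1 : ¬ Tr H) (h2 : ¬ Co H) (h3 : Sp H) :
    Nonempty (H ↪g SimpleGraph.pathGraph 4) := by
  classical
  obtain ⟨n, hn, ⟨e⟩⟩ : ∃ n, n ≤ 4 ∧ Nonempty (V ≃ Fin n) := by
    by_cases hfin : Finite V
    · refine ⟨Nat.card V, ?_, ⟨Finite.equivFin V⟩⟩
      by_contra hcon
      rw [not_le] at hcon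
      exact no_five h1 h2 h3 (fun i => (Finite.equivFin V).symm (Fin.castLE hcon i))
        (fun i j hij => Fin.castLE_injective hcon ((Finite.equivFin V).symm.injective hij))
    · exfalso
      have hinf : Infinite V := not_finite_iff_infinite.1 hfin
      exact no_five h1 h2 h3 (fun i => Infinite.natEmbedding V i.val)
        (fun i j hij => Fin.ext ((Infinite.natEmbedding V).injective hij))
  set G : SimpleGraph (Fin n) := H.comap e.symm with hG
  have ha : ∀ i j, G.Adj i j ↔ H.Adj (e.symm i) (e.symm j) := fun i j => Iff.rfl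
  obtain ⟨f, hf1, hf2⟩ := fin_emb hn (H := G)
    (fun ⟨i, j, k, k1, k2, k3⟩ => h1 ⟨_, _, _, k1, k2, k3⟩)
    (fun ⟨i, j, k, n1, n2, n3, k1, k2, k3⟩ => h2 ⟨_, _, _, fun h => n1 (e.symm.injective h),
      fun h => n2 (e.symm.injective h), fun h => n3 (e.symm.injective h), k1, k2, k3⟩)
    (by
      obtain ⟨A, hA1, hA2⟩ := h3
      exact ⟨fun i => A (e.symm i), fun i j hi hj hij =>
        hA1 _ _ hi hj (fun h => hij (e.symm.injective h)), fun i j hi hj => hA2 _ _ hi hj⟩)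
  refine ⟨⟨⟨fun v => f (e v), fun u v huv => e.injective (hf1 huv)⟩, ?_⟩⟩
  intro u v
  show (SimpleGraph.pathGraph 4).Adj (f (e u)) (f (e v)) ↔ H.Adj u v
  rw [← pb_iff, hf2, ha, e.symm_apply_apply, e.symm_apply_apply]

end Pool.Agent.TH783.IS
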